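import Pool.Agent.H69.GN.Stm

set_option autoImplicit false

namespace Pool.Agent.H22.GN

open Pool.Agent.H69.GN

lemma card_SD (m : ℕ) (U : Subgroup (ZMod m)ˣ) : Nat.card (SD m U) = m * Nat.card U := by
  rw [SemidirectProduct.card]
  congr 1
  rw [Nat.card_congr Multiplicative.toAdd, Nat.card_zmod]

lemma finite_SD (m : ℕ) (hm : 0 < m) (U : Subgroup (ZMod m)ˣ) : Finite (SD m U) := by
  haveI : NeZero m := ⟨hm.ne'⟩
  haveI : Finite (Multiplicative (ZMod m)) := inferInstanceAs (Finite (ZMod m))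
  exact Finite.of_equiv _ (SemidirectProduct.equivProd (φ := act m U)).symm

/-- GNU -/
theorem t_GNU (hNOR : S_NOR) (hSPL : S_SPL) (hUNQ : S_UNQ) : S_GNU := by
  intro n hn
  unfold gnu
  symm
  let F : {p : Σ k : ℕ, Subgroup (ZMod k)ˣ // 0 < p.1 ∧ p.1 * Nat.card p.2 = n} → FinGrp n :=
    fun p => @FinGrp.mk n (SD p.1.1 p.1.2) inferInstance (finite_SD p.1.1 p.2.1 p.1.2)
      ((card_SD p.1.1 p.1.2).trans p.2.2)
  refine Nat.card_congr (Equiv.ofBijective (fun p => Quotient.mk (isoSetoid n) (F p)) ⟨?_, ?_⟩)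
  · intro p q hpq
    have h : Nonempty (SD p.1.1 p.1.2 ≃* SD q.1.1 q.1.2) := Quotient.exact hpq
    apply Subtype.ext
    refine hUNQ p.1.1 q.1.1 p.1.2 q.1.2 p.2.1 q.2.1 ?_ (p.2.2.trans q.2.2.symm) h
    rw [p.2.2]; exact hn
  · intro x
    induction x using Quotient.inductionOn with
    | h G =>
      have hsq : Squarefree (Nat.card G.carrier) := by rw [G.card_eq]; exact hn
      obtain ⟨N, hN1, hN2, hN3⟩ := hNOR G.carrier hsq
      obtain ⟨m, U, hm, hc, ⟨e⟩⟩ := hSPL G.carrier hsq N hN1 hN2 hN3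
      refine ⟨⟨⟨m, U⟩, hm, hc.trans G.card_eq⟩, ?_⟩
      exact Quotient.sound ⟨e.symm⟩

end Pool.Agent.H22.GN
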